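import Pool.Agent.J4.H78.HP.Sum

set_option autoImplicit false

/-! Exponential sums over `c b ^ n / a ^ ν + F(n)` along intervals of `N` exponents `n`, for all `ν` between `ε log N` and
`(log N) ^ (1 + δ)`, with the saving `exp ((log N) ^ β)`, `2 δ + β < 1`. -/

namespace Pool.Agent.J4.H78.HP

open Finset Polynomial Filter Topology
open Pool.Agent.N639.VP
open Pool.Agent.H332R2.Lit (e)

lemma ev_rpow (x y A B C : ℝ) (hxy : x < y) (hy : 0 < y) (hC : 0 < C) :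
    ∀ᶠ t : ℝ in atTop, A * t ^ x + B ≤ C * t ^ y := by
  have h1 : Tendsto (fun t : ℝ => A * t ^ (-(y - x)) + B * t ^ (-y)) atTop (𝓝 (A * 0 + B * 0)) :=
    ((tendsto_rpow_neg_atTop (by linarith : 0 < y - x)).const_mul A).add
      ((tendsto_rpow_neg_atTop hy).const_mul B)
  rw [mul_zero, mul_zero, add_zero] at h1
  filter_upwards [h1.eventually_le_const hC, eventually_gt_atTop 0] with t h2 h3
  have h4 : 0 < t ^ y := by positivity
  calc A * t ^ x + B = (A * t ^ (-(y - x)) + B * t ^ (-y)) * t ^ y := by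
        rw [add_mul, mul_assoc, mul_assoc, ← Real.rpow_add h3, ← Real.rpow_add h3]
        congr 2
        · congr 1
          ring
        · rw [neg_add_cancel, Real.rpow_zero, mul_one]
    _ ≤ C * t ^ y := mul_le_mul_of_nonneg_right h2 h4.le

lemma fac_le (K : ℕ) : K.factorial ^ K ≤ 2 ^ (K * K ^ 2) := by
  have h1 : K.factorial ≤ 2 ^ (K ^ 2) := by
    calc K.factorial ≤ K ^ K := Nat.factorial_le_pow K
      _ ≤ (2 ^ K) ^ K := Nat.pow_le_pow_left Nat.lt_two_pow_self.le K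
      _ = 2 ^ (K ^ 2) := by rw [← pow_mul]; congr 1; ring
  calc K.factorial ^ K ≤ (2 ^ (K ^ 2)) ^ K := Nat.pow_le_pow_left h1 K
    _ = 2 ^ (K * K ^ 2) := by rw [← pow_mul]; congr 1; ring

lemma size_nat {K s A B : ℕ} (hA : A ≤ 2 ^ B) (h1 : 16 * K ^ 2 ≤ s) (h2 : 16 * B ≤ s) :
    K.factorial ^ K * A ^ K ≤ 2 ^ (K * s / 8) := by
  calc K.factorial ^ K * A ^ K ≤ 2 ^ (K * K ^ 2) * (2 ^ B) ^ K :=
        Nat.mul_le_mul (fac_le K) (Nat.pow_le_pow_left hA K)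
    _ = 2 ^ (K * (K ^ 2 + B)) := by
        rw [← pow_mul, ← pow_add]
        congr 1
        ring
    _ ≤ 2 ^ (K * s / 8) := by
        apply Nat.pow_le_pow_right (by norm_num)
        rw [Nat.le_div_iff_mul_le (by norm_num)]
        have h3 : (K ^ 2 + B) * 8 ≤ s := by omega
        calc K * (K ^ 2 + B) * 8 = K * ((K ^ 2 + B) * 8) := by ring
          _ ≤ K * s := Nat.mul_le_mul_left _ h3

/-- the parameters `s` and `K` -/
lemma choose_params {Λ la ε δ c₁ : ℝ} {K₀ R ν B : ℕ} (hΛ : 1 ≤ Λ) (hla : 0 < la) (hK₀ : 1 ≤ K₀)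
    (hc : 0 < c₁) (hc1 : c₁ ≤ 1 / (40 * la)) (hc2 : c₁ ≤ ε / (2 * K₀)) (E1 : 40 * la ≤ Λ)
    (E2 : 2 * (1 + K₀) ≤ ε * Λ) (E3 : (R + 16 : ℝ) * Λ ^ (2 * δ) ≤ c₁ ^ 3 * Λ) (E4 : 16 * (B : ℝ) ≤ c₁ * Λ)
    (hν1 : ε * Λ ≤ ν) (hν2 : (ν : ℝ) ≤ Λ ^ (1 + δ)) :
    ∃ s K : ℕ, K₀ ≤ K ∧ R * K ^ 2 ≤ s ∧ 16 * K ^ 2 ≤ s ∧ 16 * B ≤ s ∧ K * s + 1 ≤ ν ∧ ν ≤ (K + 1) * s ∧
      (s : ℝ) * la ≤ Λ / 20 ∧ c₁ ^ 3 * Λ ^ (1 - 2 * δ) ≤ s / (K : ℝ) ^ 2 := by
  have hΛ0 : 0 < Λ := by linarith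
  have hK₀R : (1 : ℝ) ≤ K₀ := by exact_mod_cast hK₀
  have hν3 : (1 : ℝ) < ν := by linarith
  have hν4 : 1 < ν := by exact_mod_cast hν3
  obtain ⟨s₀, hs₀⟩ : ∃ s₀ : ℕ, s₀ = ⌊Λ / (20 * la)⌋₊ := ⟨_, rfl⟩
  have h1 : (s₀ : ℝ) ≤ Λ / (20 * la) := by
    rw [hs₀]
    exact Nat.floor_le (by positivity)
  have h2 : c₁ * Λ ≤ s₀ := by
    have h3 : Λ / (20 * la) < s₀ + 1 := by
      rw [hs₀]
      exact Nat.lt_floor_add_one _
    have h4 : c₁ * Λ ≤ Λ / (40 * la) := by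
      calc c₁ * Λ ≤ 1 / (40 * la) * Λ := mul_le_mul_of_nonneg_right hc1 hΛ0.le
        _ = Λ / (40 * la) := by ring
    have h5 : 1 ≤ Λ / (40 * la) := by
      rw [le_div_iff₀ (by positivity)]
      linarith
    have h6 : Λ / (20 * la) = Λ / (40 * la) + Λ / (40 * la) := by
      field_simp
      ring
    linarith
  obtain ⟨s₁, hs₁⟩ : ∃ s₁ : ℕ, s₁ = (ν - 1) / K₀ := ⟨_, rfl⟩
  have h3 : c₁ * Λ ≤ s₁ := by
    have h4 : ν - 1 < K₀ * (s₁ + 1) := by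
      rw [hs₁]
      have := Nat.lt_mul_div_succ (ν - 1) (by omega : 0 < K₀)
      exact this
    have h5 : (ν : ℝ) - 1 < K₀ * (s₁ + 1) := by
      have h6 : ((ν - 1 : ℕ) : ℝ) < ((K₀ * (s₁ + 1) : ℕ) : ℝ) := by exact_mod_cast h4
      rw [Nat.cast_sub (by omega)] at h6
      push_cast at h6
      exact h6
    have h6 : c₁ * Λ ≤ ε * Λ / (2 * K₀) := by
      calc c₁ * Λ ≤ ε / (2 * K₀) * Λ := mul_le_mul_of_nonneg_right hc2 hΛ0.le
        _ = _ := by ring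
    refine h6.trans ?_
    rw [div_le_iff₀ (by positivity)]
    nlinarith
  obtain ⟨s, hs⟩ : ∃ s : ℕ, s = min s₀ s₁ := ⟨_, rfl⟩
  have h4 : c₁ * Λ ≤ s := by
    rw [hs]
    rcases min_choice s₀ s₁ with h | h <;> rw [h] <;> assumption
  have hcΛ : 0 < c₁ * Λ := by positivity
  have hs0R : (0 : ℝ) < s := by linarith
  have hs0 : 0 < s := by exact_mod_cast hs0R
  have hss₁ : s ≤ s₁ := by rw [hs]; exact min_le_right _ _
  have hss₀ : s ≤ s₀ := by rw [hs]; exact min_le_left _ _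
  obtain ⟨K, hK⟩ : ∃ K : ℕ, K = (ν - 1) / s := ⟨_, rfl⟩
  have h5 : K * s ≤ ν - 1 := by
    rw [hK]
    exact Nat.div_mul_le_self _ _
  have h6 : ν - 1 < s * (K + 1) := by
    rw [hK]
    exact Nat.lt_mul_div_succ _ hs0
  have h7 : K₀ ≤ K := by
    rw [hK, Nat.le_div_iff_mul_le hs0]
    calc K₀ * s ≤ K₀ * s₁ := Nat.mul_le_mul_left _ hss₁
      _ ≤ ν - 1 := by
          rw [hs₁]
          exact Nat.mul_div_le _ _
  have hK1 : 1 ≤ K := by omega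
  have hK1R : (1 : ℝ) ≤ K := by exact_mod_cast hK1
  have h8 : (K : ℝ) ≤ Λ ^ δ / c₁ := by
    have h9 : (K : ℝ) * s ≤ ν := by
      have : K * s ≤ ν := by omega
      exact_mod_cast this
    rw [le_div_iff₀ hc]
    have h10 : (K : ℝ) * (c₁ * Λ) ≤ Λ ^ (1 + δ) := by
      calc (K : ℝ) * (c₁ * Λ) ≤ K * s := mul_le_mul_of_nonneg_left h4 (by linarith)
        _ ≤ _ := h9.trans hν2
    rw [Real.rpow_add hΛ0, Real.rpow_one] at h10
    have h11 : (K : ℝ) * c₁ * Λ ≤ Λ ^ δ * Λ := by linarith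
    exact le_of_mul_le_mul_right h11 hΛ0
  have h9 : (K : ℝ) ^ 2 ≤ Λ ^ (2 * δ) / c₁ ^ 2 := by
    calc (K : ℝ) ^ 2 ≤ (Λ ^ δ / c₁) ^ 2 := pow_le_pow_left₀ (by linarith) h8 2
      _ = _ := by
          rw [div_pow, ← Real.rpow_natCast (Λ ^ δ) 2, ← Real.rpow_mul hΛ0.le]
          congr 2
          push_cast
          ring
  have h10 : ((R : ℝ) + 16) * (K : ℝ) ^ 2 ≤ s := by
    calc ((R : ℝ) + 16) * (K : ℝ) ^ 2 ≤ ((R : ℝ) + 16) * (Λ ^ (2 * δ) / c₁ ^ 2) :=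
          mul_le_mul_of_nonneg_left h9 (by positivity)
      _ = ((R + 16 : ℝ) * Λ ^ (2 * δ)) / c₁ ^ 2 := by ring
      _ ≤ (c₁ ^ 3 * Λ) / c₁ ^ 2 := div_le_div_of_nonneg_right E3 (by positivity)
      _ = c₁ * Λ := by field_simp
      _ ≤ s := h4
  refine ⟨s, K, h7, ?_, ?_, ?_, by omega, ?_, ?_, ?_⟩
  · have h11 : (R : ℝ) * (K : ℝ) ^ 2 ≤ s := by
      have : 0 ≤ 16 * (K : ℝ) ^ 2 := by positivity
      linarith
    exact_mod_cast h11
  · have h11 : 16 * (K : ℝ) ^ 2 ≤ s := by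
      have : 0 ≤ (R : ℝ) * (K : ℝ) ^ 2 := by positivity
      linarith
    exact_mod_cast h11
  · have h11 : 16 * (B : ℝ) ≤ s := by linarith
    exact_mod_cast h11
  · have : s * (K + 1) = (K + 1) * s := mul_comm _ _
    omega
  · have h11 : (s : ℝ) ≤ Λ / (20 * la) := by
      have : (s : ℝ) ≤ s₀ := by exact_mod_cast hss₀
      linarith
    calc (s : ℝ) * la ≤ Λ / (20 * la) * la := mul_le_mul_of_nonneg_right h11 hla.le
      _ = Λ / 20 := by field_simp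
  · rw [le_div_iff₀ (by positivity)]
    calc c₁ ^ 3 * Λ ^ (1 - 2 * δ) * (K : ℝ) ^ 2
        ≤ c₁ ^ 3 * Λ ^ (1 - 2 * δ) * (Λ ^ (2 * δ) / c₁ ^ 2) := mul_le_mul_of_nonneg_left h9 (by positivity)
      _ = c₁ * (Λ ^ (1 - 2 * δ) * Λ ^ (2 * δ)) := by field_simp
      _ = c₁ * Λ := by
          rw [← Real.rpow_add hΛ0]
          have : 1 - 2 * δ + 2 * δ = 1 := by ring
          rw [this, Real.rpow_one]
      _ ≤ s := h4

/-- **exponential sums along intervals** -/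
theorem exp_full {a b : ℕ} (ha : 2 ≤ a) (hb : 2 ≤ b) (hab : Nat.Coprime a b) (d : ℕ) (δ ε β : ℝ)
    (hδ : 0 ≤ δ) (hε : 0 < ε) (hβ : 0 < β) (hδβ : 2 * δ + β < 1) :
    ∃ N₀ : ℕ, ∀ N : ℕ, N₀ ≤ N → ∀ ν : ℕ, ε * Real.log N ≤ ν → (ν : ℝ) ≤ (Real.log N) ^ (1 + δ) →
      ∀ c : ℤ, ¬ (a : ℤ) ∣ c → ∀ F : ℝ[X], F.natDegree ≤ d →
      ‖∑ i ∈ range N, e ((b : ℝ) ^ i * (c / (a : ℝ) ^ ν) + F.eval (i : ℝ))‖ ≤
        N * Real.exp (-(Real.log N) ^ β) := by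
  obtain ⟨R, c, hR, hc0, hsum⟩ := sum_exp ha
  obtain ⟨g, hg⟩ : ∃ g, g = (a ^ 2).totient := ⟨_, rfl⟩
  have hg0 : 0 < g := by rw [hg]; exact Nat.totient_pos.2 (by positivity)
  have hgR : (1 : ℝ) ≤ g := by exact_mod_cast hg0
  rw [← hg] at hsum
  obtain ⟨B, hB⟩ : ∃ B : ℕ, b ^ g - 1 ≤ 2 ^ B := ⟨b ^ g - 1, Nat.lt_two_pow_self.le⟩
  have haR : (2 : ℝ) ≤ a := by exact_mod_cast ha
  have ha0 : (0 : ℝ) < a := by linarith
  obtain ⟨la, hla⟩ : ∃ la, la = Real.log a := ⟨_, rfl⟩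
  have hla0 : 0 < la := by rw [hla]; exact Real.log_pos (by linarith)
  obtain ⟨K₀, hK₀⟩ : ∃ K₀ : ℕ, K₀ = 28 + (7 * d + 7) := ⟨_, rfl⟩
  have hK₀R : (0 : ℝ) < K₀ := by
    have : 0 < K₀ := by omega
    exact_mod_cast this
  obtain ⟨c₁, hc₁⟩ : ∃ c₁ : ℝ, c₁ = min (1 / (40 * la)) (ε / (2 * K₀)) := ⟨_, rfl⟩
  have hc₁0 : 0 < c₁ := by rw [hc₁]; exact lt_min (by positivity) (by positivity)
  have hc₁1 : c₁ ≤ 1 / (40 * la) := by rw [hc₁]; exact min_le_left _ _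
  have hc₁2 : c₁ ≤ ε / (2 * K₀) := by rw [hc₁]; exact min_le_right _ _
  have hlog : Tendsto (fun N : ℕ => Real.log (N : ℝ)) atTop atTop :=
    Real.tendsto_log_atTop.comp tendsto_natCast_atTop_atTop
  have F3 := ev_rpow (2 * δ) 1 (R + 16) 0 (c₁ ^ 3) (by linarith) one_pos (by positivity)
  have F5 := ev_rpow β (1 - 2 * δ) 1 (Real.log 2) (c * c₁ ^ 3) (by linarith) (by linarith) (by positivity)
  have F6 := ev_rpow β 1 1 (Real.log (6 * g)) (11 / 20) (by linarith) one_pos (by norm_num)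
  obtain ⟨N₀, hN₀⟩ := eventually_atTop.1
    (hlog.eventually (((eventually_ge_atTop (1 + 40 * la)).and (eventually_ge_atTop (2 * (1 + K₀) / ε))).and
      ((F3.and F5).and (F6.and (eventually_ge_atTop (16 * B / c₁))))))
  refine ⟨N₀ + 1, fun N hN ν hν1 hν2 c' hc' F hF => ?_⟩
  obtain ⟨⟨E1, E2⟩, ⟨E3, E5⟩, E6, E4⟩ := hN₀ N (by omega)
  obtain ⟨Λ, hΛ⟩ : ∃ Λ, Λ = Real.log N := ⟨_, rfl⟩
  rw [← hΛ] at E1 E2 E3 E4 E5 E6 hν1 hν2 ⊢
  have hN0 : (0 : ℝ) < N := by exact_mod_cast (by omega : 0 < N)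
  have hNΛ : (N : ℝ) = Real.exp Λ := by rw [hΛ, Real.exp_log hN0]
  have hΛ1 : 1 ≤ Λ := by
    have : 0 < 40 * la := by positivity
    linarith
  rw [Real.rpow_one, add_zero] at E3
  rw [Real.rpow_one, one_mul] at E6
  rw [one_mul] at E5
  rw [div_le_iff₀ hε] at E2
  rw [div_le_iff₀ hc₁0] at E4
  obtain ⟨s, K, h1, h2, h3, h4, h5, h6, h7, h8⟩ := choose_params (ε := ε) (δ := δ) (R := R) (ν := ν) (B := B) hΛ1 hla0
    (by omega : 1 ≤ K₀) hc₁0 hc₁1 hc₁2 (by linarith) (by linarith) E3 (by linarith) hν1 hν2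
  obtain ⟨q, hq⟩ : ∃ q, q = g * a ^ s := ⟨_, rfl⟩
  have hq0 : 0 < q := by rw [hq]; positivity
  obtain ⟨E, hE⟩ : ∃ E : ℝ, E = Real.exp (-(c * (s / (K : ℝ) ^ 2))) := ⟨_, rfl⟩
  obtain ⟨T, hT⟩ : ∃ T, T = N / q := ⟨_, rfl⟩
  obtain ⟨r, hr⟩ : ∃ r, r = N % q := ⟨_, rfl⟩
  have hNeq : N = 0 + q * T + r := by
    rw [hT, hr, zero_add, Nat.div_add_mod]
  have hrq : r ≤ q := by
    rw [hr]
    exact (Nat.mod_lt _ hq0).le
  -- the powers of `a`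
  have hapow : ∀ k : ℕ, (a : ℝ) ^ k = Real.exp (k * la) := by
    intro k
    rw [hla, ← Real.log_pow, Real.exp_log (by positivity)]
  have hM2 : ((a : ℝ) ^ (4 * s)) ^ 2 ≤ Real.exp (8 * Λ / 20) := by
    rw [hapow, ← Real.exp_nat_mul]
    apply Real.exp_le_exp.2
    push_cast
    linarith
  have hqR : (q : ℝ) ≤ g * Real.exp (Λ / 20) := by
    rw [hq]
    push_cast
    rw [hapow]
    exact mul_le_mul_of_nonneg_left (Real.exp_le_exp.2 h7) (by positivity)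
  -- the sums
  have hj : ∀ j : ℕ, ‖∑ t ∈ range T, e ((b : ℝ) ^ (q * t + j) * (c' / (a : ℝ) ^ ν) + F.eval ((q * t + j : ℕ) : ℝ))‖ ≤
      E * T + 2 * ((a : ℝ) ^ (4 * s)) ^ 2 := by
    intro j
    have h9 := hsum b ν s K T d (c' * (b : ℤ) ^ j) (F.comp (C (q : ℝ) * X + C (j : ℝ))) hb hab (by omega) (by omega)
      h2 h5 h6 (size_nat hB h3 h4) (not_dvd_mul_pow hab hc' j) (by
        refine natDegree_comp_le.trans ?_
        have h10 : (C (q : ℝ) * X + C (j : ℝ) : ℝ[X]).natDegree ≤ 1 := natDegree_linear_le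
        calc F.natDegree * (C (q : ℝ) * X + C (j : ℝ) : ℝ[X]).natDegree ≤ d * 1 := Nat.mul_le_mul hF h10
          _ = d := mul_one d)
    rw [← hE] at h9
    refine (le_of_eq (congrArg norm ?_)).trans h9
    apply sum_congr rfl
    intro t _
    congr 1
    rw [eval_comp, ← hq]
    simp only [eval_add, eval_mul, eval_C, eval_X]
    rw [pow_add]
    push_cast
    ring
  rw [hNeq, Finset.sum_range_add, Finset.sum_range_add]
  have g1 : ‖∑ x ∈ range r, e ((b : ℝ) ^ (0 + q * T + x) * (c' / (a : ℝ) ^ ν) + F.eval ((0 + q * T + x : ℕ) : ℝ))‖ ≤ q := by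
    have := norm_sum_le_card (fun x : ℕ => e ((b : ℝ) ^ (0 + q * T + x) * (c' / (a : ℝ) ^ ν) +
      F.eval ((0 + q * T + x : ℕ) : ℝ))) (fun x => (e_norm _).le) (range r)
    rw [card_range] at this
    exact this.trans (by exact_mod_cast hrq)
  have g2 : ‖∑ x ∈ range (q * T), e ((b : ℝ) ^ (0 + x) * (c' / (a : ℝ) ^ ν) + F.eval ((0 + x : ℕ) : ℝ))‖ ≤
      q * (E * T + 2 * ((a : ℝ) ^ (4 * s)) ^ 2) := by
    rw [sum_range_mul' (fun x : ℕ => e ((b : ℝ) ^ (0 + x) * (c' / (a : ℝ) ^ ν) + F.eval ((0 + x : ℕ) : ℝ))), sum_comm]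
    refine (norm_sum_le _ _).trans ?_
    refine (sum_le_sum (g := fun _ => E * T + 2 * ((a : ℝ) ^ (4 * s)) ^ 2) fun j _ => ?_).trans (le_of_eq ?_)
    · have := hj j
      simp only [zero_add]
      exact this
    · rw [sum_const, card_range, nsmul_eq_mul]
  have g3 : ‖∑ x ∈ range 0, e ((b : ℝ) ^ x * (c' / (a : ℝ) ^ ν) + F.eval ((x : ℕ) : ℝ))‖ = 0 := by simp
  refine (norm_add_le _ _).trans ((add_le_add (norm_add_le _ _) g1).trans ?_)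
  rw [g3, zero_add]
  refine (add_le_add_left g2 _).trans ?_
  rw [← hNeq]
  have g4 : (q : ℝ) * T ≤ N := by
    have : q * T ≤ N := by omega
    exact_mod_cast this
  have hE0 : 0 < E := by rw [hE]; exact Real.exp_pos _
  have g5 : E ≤ Real.exp (-Λ ^ β) / 2 := by
    have g6 : Real.exp (-Λ ^ β) / 2 = Real.exp (-Λ ^ β - Real.log 2) := by
      rw [Real.exp_sub, Real.exp_log (by norm_num)]
    rw [g6, hE]
    apply Real.exp_le_exp.2
    have g7 : c * (c₁ ^ 3 * Λ ^ (1 - 2 * δ)) ≤ c * (s / (K : ℝ) ^ 2) := mul_le_mul_of_nonneg_left h8 hc0.le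
    linarith
  have g6 : 3 * (g * Real.exp (9 * Λ / 20)) ≤ Real.exp (Λ - Λ ^ β) / 2 := by
    have g7 : 3 * (g * Real.exp (9 * Λ / 20)) = Real.exp (9 * Λ / 20 + Real.log (6 * g)) / 2 := by
      rw [Real.exp_add, Real.exp_log (by positivity)]
      ring
    rw [g7]
    apply div_le_div_of_nonneg_right _ (by norm_num)
    apply Real.exp_le_exp.2
    linarith
  have g7 : (q : ℝ) * (2 * ((a : ℝ) ^ (4 * s)) ^ 2) ≤ 2 * (g * Real.exp (9 * Λ / 20)) := by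
    calc (q : ℝ) * (2 * ((a : ℝ) ^ (4 * s)) ^ 2) ≤ (g * Real.exp (Λ / 20)) * (2 * Real.exp (8 * Λ / 20)) := by
          apply mul_le_mul hqR (by linarith) (by positivity) (by positivity)
      _ = 2 * (g * (Real.exp (Λ / 20) * Real.exp (8 * Λ / 20))) := by ring
      _ = _ := by
          rw [← Real.exp_add]
          congr 3
          ring
  have g8 : (q : ℝ) ≤ g * Real.exp (9 * Λ / 20) := by
    refine hqR.trans (mul_le_mul_of_nonneg_left (Real.exp_le_exp.2 ?_) (by positivity))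
    linarith
  have g9 : (N : ℝ) * Real.exp (-Λ ^ β) = Real.exp (Λ - Λ ^ β) := by
    rw [hNΛ, ← Real.exp_add, sub_eq_add_neg]
  have g10 : (q : ℝ) * (E * T) ≤ (N : ℝ) * Real.exp (-Λ ^ β) / 2 := by
    calc (q : ℝ) * (E * T) = E * (q * T) := by ring
      _ ≤ (Real.exp (-Λ ^ β) / 2) * N := mul_le_mul g5 g4 (by positivity) (by positivity)
      _ = _ := by ring
  rw [mul_add]
  rw [g9] at g10 ⊢
  linarith

end Pool.Agent.J4.H78.HP
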