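import Pool.Agent.J4.H78.HP.TG2
import Pool.Agent.J4.H78.HP.Full

set_option autoImplicit false

/-! The family: `l p ^ n + f n` for the exponents `n` in intervals. -/

namespace Pool.Agent.J4.H78.HP

open Finset Real MeasureTheory Filter Topology
open Pool.Agent.Y933.KD (hat unif integral_unif Leb)

lemma e_eq'' (x : ℝ) : Pool.Agent.Y933.KD.e x = Pool.Agent.H332R2.Lit.e x := by
  unfold Pool.Agent.Y933.KD.e Pool.Agent.H332R2.Lit.e
  congr 1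
  push_cast
  ring

/-- the family -/
def FI (p q d : ℕ) (δ ε : ℝ) (M : ℕ) : Set (Finset ℕ × (ℕ → ℕ) × ℕ × ℕ) :=
  {x | ∃ (n₁ : ℕ) (l : ℤ) (f : Polynomial ℝ), 1 ≤ M ∧ x.1 = Ico n₁ (n₁ + M) ∧ IsCoprime l (q : ℤ) ∧ f.natDegree ≤ d ∧
    (∀ n ∈ Ico n₁ (n₁ + M), (x.2.1 n : ℝ) = l * (p : ℝ) ^ n + f.eval (n : ℝ)) ∧
    ε * log M ≤ x.2.2.1 ∧ (x.2.2.1 : ℝ) + x.2.2.2 ≤ (log M) ^ (1 + δ)}

theorem FI_ne (p q d : ℕ) (δ ε : ℝ) : ∀ M, ∀ x ∈ FI p q d δ ε M, x.1.Nonempty := by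
  rintro M x ⟨n₁, l, f, hM, hx1, _⟩
  rw [hx1]
  exact ⟨n₁, mem_Ico.2 ⟨le_refl _, by omega⟩⟩

/-- the exact power of `q` -/
lemma exists_valC {q : ℕ} (hq : 2 ≤ q) {H : ℤ} (hH : H ≠ 0) : ∃ (v : ℕ) (B : ℤ), ¬ (q : ℤ) ∣ B ∧ H = (q : ℤ) ^ v * B := by
  have h1 : FiniteMultiplicity (q : ℤ) H := by
    rw [Int.finiteMultiplicity_iff]
    refine ⟨?_, hH⟩
    rw [Int.natAbs_natCast]
    omega
  obtain ⟨c, hc, hc'⟩ := h1.exists_eq_pow_mul_and_not_dvd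
  exact ⟨_, c, hc', hc⟩

/-- the characteristic functions -/
theorem FI_hat {p q : ℕ} (d : ℕ) (hp : 2 ≤ p) (hq : 2 ≤ q) (hpq : p.Coprime q) (δ ε β : ℝ) (hδ : 0 ≤ δ) (hε : 0 < ε)
    (hβ : 0 < β) (hδβ : 2 * δ + β < 1) (k : ℕ) :
    ∃ M0 : ℕ, ∀ M : ℕ, M0 ≤ M → ∀ x ∈ FI p q d δ ε M,
      ∀ (n : Fin k → ℕ) (h : Fin k → ℤ), (∀ i, n i ≤ x.2.2.2) →
      (∀ i, |(h i : ℝ)| ≤ exp ((log M) ^ β)) → ∑ i, h i * (q : ℤ) ^ n i ≠ 0 →
      ‖hat (unif x.1 (fun m => ((x.2.1 m : ℕ) : ℝ) / (q : ℝ) ^ (x.2.2.1 + x.2.2.2)))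
        (∑ i, h i * (q : ℤ) ^ n i)‖ ≤ exp (-((log M) ^ β)) := by
  have hqR : (2 : ℝ) ≤ q := by exact_mod_cast hq
  have hq0 : (0 : ℝ) < q := by linarith
  have hq1 : (1 : ℝ) < q := by linarith
  have hlq : 0 < log (q : ℝ) := Real.log_pos hq1
  obtain ⟨N₀, hsum⟩ := exp_full hq hp hpq.symm d δ (ε / 2) β hδ (by positivity) hβ hδβ
  -- the logarithms
  have hlog : Tendsto (fun N : ℕ => Real.log (N : ℝ)) atTop atTop :=
    Real.tendsto_log_atTop.comp tendsto_natCast_atTop_atTop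
  have F1 := ev_rpow β 1 1 (log k) (ε / 2 * log q) (by linarith) one_pos (by positivity)
  obtain ⟨N₁, hN₁⟩ := eventually_atTop.1 (hlog.eventually F1)
  refine ⟨N₀ + N₁ + 1, fun M hM x hx n h hn hh hne => ?_⟩
  have E1 := hN₁ M (by omega)
  obtain ⟨n₁, l, f, hM1, hx1, hl, hf, hY, hs, hJ⟩ := hx
  obtain ⟨T, Y, s, J⟩ := x
  simp only at hx1 hY hs hJ hn ⊢
  subst hx1
  obtain ⟨Λ, hΛ⟩ : ∃ Λ, Λ = log (M : ℝ) := ⟨_, rfl⟩
  rw [← hΛ] at E1 hs hJ hh ⊢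
  rw [Real.rpow_one, one_mul] at E1
  have hΛ0 : 0 ≤ Λ := by rw [hΛ]; exact Real.log_natCast_nonneg M
  obtain ⟨H, hH⟩ : ∃ H : ℤ, H = ∑ i, h i * (q : ℤ) ^ n i := ⟨_, rfl⟩
  rw [← hH] at hne ⊢
  obtain ⟨v, B, hB, hv⟩ := exists_valC hq hne
  have hk : 0 < k := by
    rcases Nat.eq_zero_or_pos k with h0 | h0
    · exfalso
      subst h0
      apply hne
      rw [hH]
      simp
    · exact h0
  have hkR : (0 : ℝ) < k := by exact_mod_cast hk
  -- the size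
  have h1 : |(H : ℝ)| ≤ k * (exp (Λ ^ β) * (q : ℝ) ^ J) := by
    rw [hH]
    push_cast
    refine (abs_sum_le_sum_abs _ _).trans ?_
    refine (sum_le_card_nsmul _ _ (exp (Λ ^ β) * (q : ℝ) ^ J) fun i _ => ?_).trans ?_
    · rw [abs_mul, abs_of_nonneg (by positivity : (0 : ℝ) ≤ (q : ℝ) ^ n i)]
      exact mul_le_mul (hh i) (pow_le_pow_right₀ hq1.le (hn i)) (by positivity) (exp_pos _).le
    · rw [card_univ, Fintype.card_fin, nsmul_eq_mul]
  have h2 : (q : ℝ) ^ v ≤ |(H : ℝ)| := by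
    rw [hv]
    push_cast
    rw [abs_mul, abs_of_nonneg (by positivity : (0 : ℝ) ≤ (q : ℝ) ^ v)]
    refine le_mul_of_one_le_right (by positivity) ?_
    have : 1 ≤ |B| := Int.one_le_abs (fun h => by rw [h] at hB; exact hB (dvd_zero _))
    exact_mod_cast this
  have h3 : (v : ℝ) * log q ≤ log k + Λ ^ β + J * log q := by
    have h4 := Real.log_le_log (by positivity) (h2.trans h1)
    rw [Real.log_pow, Real.log_mul hkR.ne' (by positivity), Real.log_mul (by positivity)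
      (by positivity), Real.log_exp, Real.log_pow] at h4
    linarith
  have h4 : (v : ℝ) ≤ J + ε / 2 * Λ := by
    have h5 : (v : ℝ) * log q ≤ (J + ε / 2 * Λ) * log q := by
      have e1 : ε / 2 * log q * Λ = ε / 2 * Λ * log q := by ring
      linarith
    exact le_of_mul_le_mul_right h5 hlq
  have hvs : v ≤ s + J := by
    have h5 : (v : ℝ) ≤ s + J := by
      have : 0 ≤ ε / 2 * Λ := by positivity
      linarith
    exact_mod_cast h5
  obtain ⟨ν, hν⟩ : ∃ ν : ℕ, s + J = ν + v := ⟨s + J - v, by omega⟩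
  have hνR : (ν : ℝ) = s + J - v := by
    have : ((s + J : ℕ) : ℝ) = ((ν + v : ℕ) : ℝ) := by rw [hν]
    push_cast at this
    linarith
  have hBl : ¬ (q : ℤ) ∣ B * l * (p : ℤ) ^ n₁ := by
    intro hd
    have h5 : IsCoprime (q : ℤ) ((p : ℤ) ^ n₁) := by
      apply IsCoprime.pow_right
      rw [Int.isCoprime_iff_gcd_eq_one]
      exact_mod_cast hpq.symm
    exact hB (hl.symm.dvd_of_dvd_mul_right (h5.dvd_of_dvd_mul_right hd))
  obtain ⟨c, hc⟩ : ∃ c : ℝ, c = (H : ℝ) / (q : ℝ) ^ (s + J) := ⟨_, rfl⟩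
  have key := hsum M (by omega) ν (by
      rw [hνR, ← hΛ]
      linarith) (by
      rw [hνR, ← hΛ]
      have : (0 : ℝ) ≤ v := Nat.cast_nonneg v
      linarith) (B * l * (p : ℤ) ^ n₁) hBl ((Polynomial.C c * f).comp (Polynomial.X + Polynomial.C (n₁ : ℝ))) (by
      refine Polynomial.natDegree_comp_le.trans ?_
      rw [Polynomial.natDegree_X_add_C, mul_one]
      exact (Polynomial.natDegree_C_mul_le _ _).trans hf)
  have e1 : ∀ i ∈ range M, Pool.Agent.Y933.KD.e (((H : ℤ) : ℝ) * (((Y (n₁ + i) : ℕ) : ℝ) / (q : ℝ) ^ (s + J))) =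
      Pool.Agent.H332R2.Lit.e ((p : ℝ) ^ i * (((B * l * (p : ℤ) ^ n₁ : ℤ) : ℝ) / (q : ℝ) ^ ν) +
        ((Polynomial.C c * f).comp (Polynomial.X + Polynomial.C (n₁ : ℝ))).eval (i : ℝ)) := by
    intro i hi
    rw [mem_range] at hi
    rw [e_eq'', hY (n₁ + i) (mem_Ico.2 ⟨by omega, by omega⟩), Polynomial.eval_comp, Polynomial.eval_mul,
      Polynomial.eval_C, hc, Polynomial.eval_add, Polynomial.eval_X, Polynomial.eval_C]
    congr 1
    have h5 : (q : ℝ) ^ (s + J) = (q : ℝ) ^ ν * (q : ℝ) ^ v := by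
      rw [← pow_add, hν]
    have h6 : (H : ℝ) = (q : ℝ) ^ v * B := by
      rw [hv]
      push_cast
      ring
    have h7 : ((n₁ + i : ℕ) : ℝ) = (i : ℝ) + n₁ := by push_cast; ring
    rw [h5, h6, h7, pow_add]
    push_cast
    field_simp
  have hMR : (0 : ℝ) < M := by exact_mod_cast (by omega : 0 < M)
  unfold hat
  rw [integral_unif, Finset.sum_Ico_eq_sum_range, Nat.card_Ico, Nat.add_sub_cancel_left, sum_congr rfl e1, norm_mul,
    norm_div, norm_one, Complex.norm_natCast, one_div, inv_mul_le_iff₀ hMR]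
  rw [← hΛ] at key
  exact key

/-- the tests -/
theorem FI_TG {p q : ℕ} (d : ℕ) (hp : 2 ≤ p) (hq : 2 ≤ q) (hpq : p.Coprime q) (δ ε : ℝ) (hδ : 0 < δ) (hδ1 : δ < 1 / 2)
    (hε : 0 < ε) : Pool.Agent.N639.FG.TG q (fun M : ℕ => 2 * (log M) ^ (1 + δ))
      (Pool.Agent.J4.H78.PM.SF q (FI p q d δ ε)) := by
  obtain ⟨β, hβ⟩ : ∃ β : ℝ, β = (1 - 2 * δ) / 2 := ⟨_, rfl⟩
  have hβ0 : 0 < β := by rw [hβ]; linarith
  have hlog : Tendsto (fun N : ℕ => Real.log (N : ℝ)) atTop atTop :=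
    Real.tendsto_log_atTop.comp tendsto_natCast_atTop_atTop
  have hL : Tendsto (fun M : ℕ => 2 * (log (M : ℝ)) ^ (1 + δ)) atTop atTop :=
    ((tendsto_rpow_atTop (by linarith : 0 < 1 + δ)).comp hlog).const_mul_atTop (by norm_num)
  refine tg_gen2 (L := fun M : ℕ => 2 * (log (M : ℝ)) ^ (1 + δ)) (τ := fun M : ℕ => (log (M : ℝ)) ^ β) hq (FI p q d δ ε)
    (FI_ne p q d δ ε) hL (fun M => Real.rpow_nonneg (Real.log_natCast_nonneg M) β) (fun k => ?_) fun k D => ?_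
  · exact FI_hat d hp hq hpq δ ε β hδ.le hε hβ0 (by rw [hβ]; linarith) k
  · -- an exponential beats the powers
    have h1 : Tendsto (fun t : ℝ => (3 ^ k + (k : ℝ) * 29) * exp (-(t ^ β / (3 * k + 4))) * (2 * t ^ (1 + δ)) ^ D)
        atTop (𝓝 0) := by
      have h2 : Tendsto (fun y : ℝ => y ^ ((1 + δ) / β * D) * exp (-(1 / (3 * k + 4) : ℝ) * y)) atTop (𝓝 0) :=
        tendsto_rpow_mul_exp_neg_mul_atTop_nhds_zero _ _ (by positivity)
      have h3 := (h2.comp (tendsto_rpow_atTop hβ0)).const_mul ((3 ^ k + (k : ℝ) * 29) * 2 ^ D)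
      rw [mul_zero] at h3
      refine h3.congr' ?_
      filter_upwards [eventually_gt_atTop 0] with t ht
      simp only [Function.comp]
      have e1 : (t ^ β) ^ ((1 + δ) / β * D) = (t ^ (1 + δ)) ^ D := by
        rw [← Real.rpow_mul ht.le, ← Real.rpow_natCast (t ^ (1 + δ)) D, ← Real.rpow_mul ht.le]
        congr 1
        field_simp
      rw [e1, mul_pow]
      have e2 : -(1 / (3 * k + 4) : ℝ) * t ^ β = -(t ^ β / (3 * k + 4)) := by ring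
      rw [e2]
      ring
    filter_upwards [hlog.eventually (h1.eventually_le_const one_pos), hL.eventually_gt_atTop 0] with M h2 h3
    rw [← one_div, le_div_iff₀ (by positivity)]
    exact h2

end Pool.Agent.J4.H78.HP
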