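import Pool.Agent.J4.H78.HP.Tt
import Pool.Agent.N639.VP.F2

set_option autoImplicit false

/-! Exponential sums over `c b ^ t / a ^ ν + F(t)`, `F` a polynomial of bounded degree, with the saving of Vinogradov's
method. -/

namespace Pool.Agent.J4.H78.HP

open Finset Polynomial
open Pool.Agent.N639.VP
open Pool.Agent.R501.FR
open Pool.Agent.H332R2.Lit (e)
open Pool.Agent.Y957.VK (TT)

lemma shiftP (K : ℕ) (P : ℝ[X]) (hP : P.natDegree ≤ K) (z : ℕ) (x : ℝ) :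
    P.eval ((z : ℝ) + x) = (P.comp (X + C (z : ℝ))).coeff 0 +
      ∑ j ∈ Icc 1 K, (P.comp (X + C (z : ℝ))).coeff j * x ^ j := by
  have h1 : P.eval ((z : ℝ) + x) = (P.comp (X + C (z : ℝ))).eval x := by
    rw [eval_comp]
    congr 1
    simp [add_comm]
  have h2 : (P.comp (X + C (z : ℝ))).natDegree < K + 1 := by
    refine lt_of_le_of_lt natDegree_comp_le ?_
    rw [natDegree_X_add_C, mul_one]
    exact Nat.lt_succ_of_le hP
  rw [h1, eval_eq_sum_range' h2, sum_range_succ', add_comm]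
  congr 1
  · rw [pow_zero, mul_one]
  · rw [sum_Icc_one]

/-- the bilinear sums of the phases -/
lemma bil_eqP (K M : ℕ) (P : ℝ[X]) (hP : P.natDegree ≤ K) (t : ℕ) :
    ∑ x ∈ Icc 1 M, ∑ y ∈ Icc 1 M, e (P.eval ((t + x * y : ℕ) : ℝ)) =
      e ((P.comp (X + C (t : ℝ))).coeff 0) * TT K M (fun j => (P.comp (X + C (t : ℝ))).coeff j) := by
  rw [TT, mul_sum]
  apply sum_congr rfl
  intro x _
  rw [mul_sum]
  apply sum_congr rfl
  intro y _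
  have h2 : ((t + x * y : ℕ) : ℝ) = (t : ℝ) + (x : ℝ) * y := by push_cast; ring
  rw [h2, shiftP K P hP, Pool.Agent.Y943.Fu.e_add']
  congr 1
  rw [e]
  congr 1
  ring

/-- averaging over the shifts `x y` -/
lemma shift_allP (φ : ℕ → ℂ) (hφ : ∀ t, ‖φ t‖ ≤ 1) (T M : ℕ) (hM : 1 ≤ M) (κ : ℝ)
    (h : ∀ t, ‖∑ x ∈ Icc 1 M, ∑ y ∈ Icc 1 M, φ (t + x * y)‖ ≤ κ * (M : ℝ) ^ 2) :
    ‖∑ t ∈ range T, φ t‖ ≤ κ * T + 2 * (M : ℝ) ^ 2 := shift_all φ hφ T M hM κ h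

/-- **exponential sums over powers modulo powers, with a polynomial** -/
theorem sum_exp {a : ℕ} (ha : 2 ≤ a) : ∃ (R : ℕ) (c : ℝ), 1 ≤ R ∧ 0 < c ∧
    ∀ (b n s K T d : ℕ) (c' : ℤ) (F : ℝ[X]), 2 ≤ b → Nat.Coprime a b → 28 ≤ K → 7 * d + 7 ≤ K →
      R * K ^ 2 ≤ s → K * s + 1 ≤ n → n ≤ (K + 1) * s →
      K.factorial ^ K * (b ^ (a ^ 2).totient - 1) ^ K ≤ 2 ^ (K * s / 8) → ¬ (a : ℤ) ∣ c' → F.natDegree ≤ d →
      ‖∑ t ∈ range T, e ((b : ℝ) ^ ((a ^ 2).totient * a ^ s * t) * (c' / (a : ℝ) ^ n) + F.eval (t : ℝ))‖ ≤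
        Real.exp (-(c * (s / (K : ℝ) ^ 2))) * T + 2 * ((a : ℝ) ^ (4 * s)) ^ 2 := by
  obtain ⟨R, c, hR, hc0, htt⟩ := tt_exp ha
  refine ⟨R, c, hR, hc0, ?_⟩
  intro b n s K T d c' F hb hab hK hKd hRs hn1 hn2 hsize hc hF
  have hdvd : 1 ∣ b ^ 0 * (b ^ ((a ^ 2).totient * 1) - 1) := one_dvd _
  obtain ⟨Y, w, u, hw, hu⟩ := setup (s := s) (D := 1) hb hab hdvd
  have hA1 : 1 ≤ b ^ (a ^ 2).totient - 1 := by
    have h1 : 0 < (a ^ 2).totient := Nat.totient_pos.2 (Nat.pow_pos (by omega))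
    have h2 : 2 ≤ b ^ (a ^ 2).totient := hb.trans (Nat.le_self_pow h1.ne' b)
    exact Nat.le_sub_of_add_le h2
  have hden := fun (t : ℕ) {j : ℕ} (h1 : 1 ≤ j) (h2 : j ≤ K) =>
    den_bounds (H := 1) ha hb hab le_rfl le_rfl hn1 hn2 hc hdvd (le_refl 1) (le_refl 1) t h1 h2
  have hph0 := fun (ham : ((a ^ n * 1 : ℕ) : ℝ) ≠ 0) (X : ℤ)
    (hX : X = (b : ℤ) ^ ((a ^ 2).totient * 1 * a ^ s) - 1) (hw : X = (a : ℤ) ^ s * Y * w) =>
    phase (c := c') 1 ham hn2 hX hw hu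
  have hsize' : 1 * K.factorial ^ K * (b ^ (a ^ 2).totient - 1) ^ K * 1 ^ K ≤ 2 ^ (K * s / 8) := by
    rw [one_mul, one_pow, mul_one]
    exact hsize
  have hsz := fun {j : ℕ} (h1 : j ≤ K) (h2 : 4 * j ≤ K) => sizes hA1 (le_refl 1) hn1 h1 h2 hsize'
  generalize (a ^ 2).totient = g at *
  obtain ⟨X₀, hX⟩ : ∃ X₀ : ℤ, X₀ = (b : ℤ) ^ (g * 1 * a ^ s) - 1 := ⟨_, rfl⟩
  rw [← hX] at hw
  have ha0 : (0 : ℝ) < a := by exact_mod_cast (by omega : 0 < a)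
  have ham : ((a ^ n * 1 : ℕ) : ℝ) ≠ 0 := by
    push_cast
    positivity
  have hph := hph0 ham X₀ hX hw
  simp only [← hX] at hden
  obtain ⟨β, hβ⟩ : ∃ β : ℝ, β = ((1 : ℕ) : ℝ) * c' * b ^ 0 / ((a ^ n * 1 : ℕ) : ℝ) := ⟨_, rfl⟩
  rw [← hβ] at hph
  simp only [← hβ] at hden
  obtain ⟨P, hP⟩ : ∃ P : ℝ[X], P = pol K β (X₀ : ℝ) + F := ⟨_, rfl⟩
  have hPK : P.natDegree ≤ K := by
    rw [hP]
    exact (natDegree_add_le _ _).trans (max_le (pol_natDegree K β X₀) (hF.trans (by omega)))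
  have hterm : ∀ t : ℕ, e ((b : ℝ) ^ (g * a ^ s * t) * (c' / (a : ℝ) ^ n) + F.eval (t : ℝ)) =
      e (P.eval (t : ℝ)) := by
    intro t
    have h1 := hph t
    rw [hP, eval_add, Pool.Agent.Y943.Fu.e_add', Pool.Agent.Y943.Fu.e_add', ← h1]
    congr 2
    push_cast
    rw [zero_add, mul_one, mul_one, one_mul]
  rw [sum_congr rfl fun t _ => hterm t]
  obtain ⟨M, hM⟩ : ∃ M : ℕ, M = a ^ (4 * s) := ⟨_, rfl⟩
  have hM1 : 1 ≤ M := by rw [hM]; exact Nat.one_le_pow _ _ (by omega)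
  obtain ⟨E, hE⟩ : ∃ E : ℝ, E = Real.exp (-(c * (s / (K : ℝ) ^ 2))) := ⟨_, rfl⟩
  have hbil : ∀ t, ‖∑ x ∈ Icc 1 M, ∑ y ∈ Icc 1 M, (fun t : ℕ => e (P.eval (t : ℝ))) (t + x * y)‖ ≤
      E * (M : ℝ) ^ 2 := by
    intro t
    have h1 := bil_eqP K M P hPK t
    refine (le_of_eq (congrArg norm h1)).trans ?_
    rw [norm_mul, e_norm, one_mul, hM, hE]
    apply htt K s n hK hRs hn1 hn2
    intro j hj hj7 hj4
    rw [mem_Icc] at hj
    obtain ⟨q, A, hq, hqA, hval, hqle, hlow⟩ := hden t hj.1 hj.2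
    refine ⟨q, A, hq, hqA, ?_, hqle, hlow (2 ^ (K * s / 2)) (hsz hj.2 hj4)⟩
    have h2 : (P.comp (X + C (t : ℝ))).coeff j = al K β (X₀ : ℝ) t j := by
      rw [hP, add_comp, coeff_add]
      have h3 : (F.comp (X + C (t : ℝ))).coeff j = 0 := by
        apply coeff_eq_zero_of_natDegree_lt
        refine lt_of_le_of_lt natDegree_comp_le ?_
        rw [natDegree_X_add_C, mul_one]
        omega
      rw [h3, add_zero]
      rfl
    rw [h2]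
    exact hval
  have h1 := shift_allP (fun t : ℕ => e (P.eval (t : ℝ)))
    (fun t => (e_norm (P.eval (t : ℝ))).le) T M hM1 E hbil
  refine h1.trans (le_of_eq ?_)
  rw [hM, hE]
  push_cast
  ring

end Pool.Agent.J4.H78.HP
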