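import Pool.Agent.J4.H78.PM.TGen

set_option autoImplicit false

/-! From characteristic functions to the laws of the digits, with savings smaller than all powers of the number of the
places. -/

namespace Pool.Agent.J4.H78.HP

open Finset Real MeasureTheory Pool.Agent.Y933.KD Filter Topology
open Pool.Agent.N639.FS Pool.Agent.N639.FG Pool.Agent.N639.FH
open Pool.Agent.Y933.KE (WE smear meas_map smear_prob wd_smear real_smear measurableSet_WE WE_eq)

/-- the tests on words of the digits -/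
theorem words_gen2 {q : ℕ} (hq1 : 1 ≤ q) (k : ℕ) {τ : ℝ} (hτ : 0 ≤ τ)
    (T : Finset ℕ) (hT : T.Nonempty) (Y : ℕ → ℕ) (s J : ℕ)
    (hhat : ∀ (n : Fin k → ℕ) (h : Fin k → ℤ), (∀ i, n i ≤ J) →
      (∀ i, |(h i : ℝ)| ≤ exp τ) → ∑ i, h i * (q : ℤ) ^ n i ≠ 0 →
      ‖hat (unif T (fun m => ((Y m : ℕ) : ℝ) / (q : ℝ) ^ (s + J)))
        (∑ i, h i * (q : ℤ) ^ n i)‖ ≤ exp (-τ))
    (n w c : Fin k → ℕ) (hn : ∀ i, n i + w i ≤ J) :
    |((T.filter (fun m => ∀ r, Y m / q ^ s / q ^ (J - (n r + w r)) % q ^ (w r) =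
        c r)).card : ℝ) / T.card - Leb.real (WE q n w c)| ≤
      (3 ^ k + k * 29) * exp (-(τ / (3 * k + 4))) := by
  have hq0 : (0 : ℝ) < q := by exact_mod_cast (by omega : 0 < q)
  have hpos : (0 : ℝ) ≤ (3 ^ k + (k : ℝ) * 29) * exp (-(τ / (3 * k + 4))) := by positivity
  -- the proportion as a probability
  set x : ℕ → ℝ := fun m => ((Y m : ℕ) : ℝ) / (q : ℝ) ^ (s + J) with hx
  have hP := unif_prob hT x
  classical
  have e1 : ((T.filter (fun m => ∀ r, Y m / q ^ s / q ^ (J - (n r + w r)) %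
      q ^ (w r) = c r)).card : ℝ) / T.card = (unif T x).real (WE q n w c) := by
    rw [real_unif _ _ (measurableSet_WE _ _ _ _)]
    congr 2
    congr 1
    refine filter_congr fun m _ => ?_
    unfold WE
    simp only [Set.mem_ofPred_eq]
    refine forall_congr' fun r => ?_
    have h1 : n r + w r ≤ s + J := by have := hn r; omega
    have h2 := wd_smear hq1 h1 (Y m) (θ := 0) (by simp)
    rw [add_zero] at h2
    have h3 : s + J - (n r + w r) = s + (J - (n r + w r)) := by have := hn r; omega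
    rw [hx]
    simp only
    rw [h2, h3, pow_add, Nat.div_div_eq_div_mul]
  rw [e1]
  by_cases hc : ∀ i, c i < q ^ w i
  · rw [WE_eq hq1]
    have key := Pool.Agent.N586.RT.events_test (b := q) hq1 hτ
      (unif T x) n
      (fun h hh hne => hhat n h (fun i => by have := hn i; omega) hh hne)
      (fun i => (c i : ℝ) / (q : ℝ) ^ (w i)) (fun i => ((c i : ℝ) + 1) / (q : ℝ) ^ (w i))
      (fun i => by positivity) (fun i => by
        rw [div_le_one (by positivity)]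
        exact_mod_cast hc i)
    exact key
  · push Not at hc
    obtain ⟨i, hi⟩ := hc
    have e2 : WE q n w c = ∅ := by
      ext y
      simp only [Set.mem_empty_iff_false, iff_false]
      intro hy
      have h1 := hy i
      have h2 := wd_lt hq1 (w i) (n i) y
      omega
    rw [e2]
    simp only [measureReal_empty, sub_self, abs_zero]
    exact hpos

/-- **from tests on words** -/
theorem tg_of_words2 {b : ℕ} (hb : 2 ≤ b) {L : ℕ → ℝ} (hL : Tendsto L atTop atTop)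
    {S : ℕ → Set (Measure ℝ)} (hS : ∀ M : ℕ, ∀ P ∈ S M, IsProbabilityMeasure P)
    (hT : ∀ k D : ℕ, ∀ᶠ M : ℕ in atTop, ∀ P ∈ S M, ∀ n w c : Fin k → ℕ,
      |P.real (WE b n w c) - Leb.real (WE b n w c)| ≤ ((L M) ^ D)⁻¹) : TG b L S := by
  have hb1 : 1 ≤ b := by omega
  refine ⟨hL, Eventually.of_forall hS, ?_⟩
  intro k D
  filter_upwards [hT k ((D + 1) * k + (D + 1)), hL.eventually_ge_atTop 1, hL.eventually_ge_atTop (4 * k),
    hL.eventually_ge_atTop (2 * (b : ℝ) ^ k)] with M hCM g4 g5 g6 P hP n hn u v hu hv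
  have := hS M P hP
  obtain ⟨X, hX⟩ : ∃ X : ℝ, X = L M := ⟨_, rfl⟩
  rw [← hX] at g4 g5 g6 hCM ⊢
  have hX0 : 0 < X := by linarith
  obtain ⟨w, hw1, hw2, hw3⟩ := exists_len hb (one_le_pow₀ g4 : 1 ≤ X ^ (D + 1))
  have key := sandwich w hb1 n u v P (Δ := (X ^ ((D + 1) * k + (D + 1)))⁻¹) (by
    intro c
    have h8 := hCM P hP n (fun _ => w) c
    rw [WE_eq hb1] at h8
    exact h8)
  refine key.trans ?_
  have hXD : 0 < X ^ D := by positivity
  have t1 : 2 * (k : ℝ) / (b : ℝ) ^ w ≤ 1 / 2 * (X ^ D)⁻¹ := by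
    calc 2 * (k : ℝ) / (b : ℝ) ^ w ≤ 2 * (k : ℝ) / X ^ (D + 1) := by gcongr
      _ = (2 * k / X) * (X ^ D)⁻¹ := by
          rw [pow_succ]
          field_simp
      _ ≤ 1 / 2 * (X ^ D)⁻¹ := by
          have h20 : 2 * (k : ℝ) / X ≤ 1 / 2 := by
            rw [div_le_iff₀ hX0]
            linarith
          exact mul_le_mul_of_nonneg_right h20 (by positivity)
  have t2 : ((b : ℝ) ^ w) ^ k * (X ^ ((D + 1) * k + (D + 1)))⁻¹ ≤ 1 / 2 * (X ^ D)⁻¹ := by
    calc ((b : ℝ) ^ w) ^ k * (X ^ ((D + 1) * k + (D + 1)))⁻¹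
        ≤ (b * X ^ (D + 1)) ^ k * (X ^ ((D + 1) * k + (D + 1)))⁻¹ := by gcongr
      _ = (b : ℝ) ^ k / X * (X ^ D)⁻¹ := by
          rw [mul_pow, ← pow_mul, pow_add, pow_succ X D]
          field_simp
      _ ≤ 1 / 2 * (X ^ D)⁻¹ := by
          apply mul_le_mul_of_nonneg_right _ (by positivity)
          rw [div_le_iff₀ hX0]
          linarith
  linarith

open Pool.Agent.J4.H78.PM (SF)

theorem tg_gen2 {q : ℕ} (hq : 2 ≤ q) (F : ℕ → Set (Finset ℕ × (ℕ → ℕ) × ℕ × ℕ))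
    (hne : ∀ M, ∀ x ∈ F M, x.1.Nonempty) {L τ : ℕ → ℝ} (hL : Tendsto L atTop atTop) (hτ0 : ∀ M, 0 ≤ τ M)
    (hhat : ∀ k : ℕ, ∃ M0 : ℕ, ∀ M : ℕ, M0 ≤ M → ∀ x ∈ F M,
      ∀ (n : Fin k → ℕ) (h : Fin k → ℤ), (∀ i, n i ≤ x.2.2.2) →
      (∀ i, |(h i : ℝ)| ≤ exp (τ M)) → ∑ i, h i * (q : ℤ) ^ n i ≠ 0 →
      ‖hat (unif x.1 (fun m => ((x.2.1 m : ℕ) : ℝ) / (q : ℝ) ^ (x.2.2.1 + x.2.2.2)))
        (∑ i, h i * (q : ℤ) ^ n i)‖ ≤ exp (-(τ M)))
    (hτ : ∀ k D : ℕ, ∀ᶠ M : ℕ in atTop, (3 ^ k + k * 29) * exp (-(τ M / (3 * k + 4))) ≤ ((L M) ^ D)⁻¹) :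
    TG q L (SF q F) := by
  refine tg_of_words2 hq hL ?_ fun k D => ?_
  · rintro M P ⟨x, hx, rfl⟩
    exact smear_prob (hne M x hx) _ _ _
  · obtain ⟨M0, h⟩ := hhat k
    filter_upwards [eventually_ge_atTop M0, hτ k D] with M hM hτM P hP n w c
    obtain ⟨x, hx, rfl⟩ := hP
    refine le_trans ?_ hτM
    exact tw_smear (by omega : 1 ≤ q) x.1 (fun m => x.2.1 m / q ^ x.2.2.1) x.2.2.2
      (fun n w c hn => words_gen2 (by omega) k (hτ0 M) x.1 (hne M x hx) x.2.1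
        x.2.2.1 x.2.2.2 (h M hM x hx) n w c hn) n w c

end Pool.Agent.J4.H78.HP
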