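import Pool.Agent.N639.VP.T2

set_option autoImplicit false

/-!
# The bilinear sums are exponentially small

This is `Pool.Agent.N639.VP.tt_small` (starting files) with the exponential saving which its proof gives; the proof is
repeated with small changes.
-/

namespace Pool.Agent.J4.H78.HP

open Finset
open Pool.Agent.N639.VP
open Pool.Agent.Y957.VK (dz mn WJ TT J)

/-- **the bilinear sums are exponentially small** -/
theorem tt_exp {a : ℕ} (ha : 2 ≤ a) : ∃ (R : ℕ) (c : ℝ), 1 ≤ R ∧ 0 < c ∧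
    ∀ K s n : ℕ, 28 ≤ K → R * K ^ 2 ≤ s → K * s + 1 ≤ n → n ≤ (K + 1) * s → ∀ α : ℕ → ℝ,
    (∀ j ∈ Icc 1 K, K ≤ 7 * j → 4 * j ≤ K → ∃ (q : ℕ) (A : ℤ), 0 < q ∧ IsCoprime A (q : ℤ) ∧
      α j = (A : ℝ) / q ∧ q ≤ K.factorial * a ^ (n - j * s) ∧ 2 ^ (K * s / 2) < q) →
    ‖TT K (a ^ (4 * s)) α‖ ≤ Real.exp (-(c * (s / (K : ℝ) ^ 2))) * ((a ^ (4 * s) : ℕ) : ℝ) ^ 2 := by
  obtain ⟨C1, hC1, hV⟩ := Pool.Agent.N586.AN.t_vm
  have hdbl := Pool.Agent.N586.RT.dbl_all
  obtain ⟨la, hla⟩ : ∃ la, la = Real.log a := ⟨_, rfl⟩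
  obtain ⟨l2, hl2⟩ : ∃ l2, l2 = Real.log 2 := ⟨_, rfl⟩
  have haR : (2 : ℝ) ≤ a := by exact_mod_cast ha
  have hl20 : 0 < l2 := by rw [hl2]; exact Real.log_pos (by norm_num)
  have hl21 : l2 ≤ 1 := by
    rw [hl2]
    have := Real.log_two_lt_d9
    linarith
  have hlala : l2 ≤ la := by
    rw [hl2, hla]
    exact Real.log_le_log (by norm_num) haR
  have hla0 : 0 < la := by linarith
  obtain ⟨L₀, hL₀⟩ : ∃ L₀ : ℕ, Real.exp (-(L₀ : ℝ)) ≤ l2 / (3200 * la) := by
    obtain ⟨N, hN⟩ := exists_nat_ge (-Real.log (l2 / (3200 * la)))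
    refine ⟨N, ?_⟩
    have h1 : -(N : ℝ) ≤ Real.log (l2 / (3200 * la)) := by linarith
    calc Real.exp (-(N : ℝ)) ≤ Real.exp (Real.log (l2 / (3200 * la))) := Real.exp_le_exp.2 h1
      _ = _ := Real.exp_log (by positivity)
  obtain ⟨lam, hlam⟩ : ∃ lam : ℝ, lam = 1 + L₀ := ⟨_, rfl⟩
  have hlam1 : 1 ≤ lam := by
    rw [hlam]
    have : (0 : ℝ) ≤ L₀ := Nat.cast_nonneg _
    linarith
  obtain ⟨ε, hε⟩ : ∃ ε : ℝ, ε = l2 / (3200 * (1 + 2 * la)) := ⟨_, rfl⟩
  have hε0 : 0 < ε := by rw [hε]; positivity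
  obtain ⟨R, hR⟩ : ∃ R : ℕ, 1 + 1600 * (12 * lam ^ 2 + 5) / l2 + 3200 / (ε * l2) + 800 * C1 * lam ^ 4 / l2 ≤ R :=
    exists_nat_ge _
  have t1 : 0 ≤ 1600 * (12 * lam ^ 2 + 5) / l2 := by positivity
  have t2 : 0 ≤ 3200 / (ε * l2) := by positivity
  have t3 : 0 ≤ 800 * C1 * lam ^ 4 / l2 := by positivity
  have hR1 : (1 : ℝ) ≤ R := by linarith
  have r1 : 1600 * (12 * lam ^ 2 + 5) ≤ R * l2 := by
    have : 1600 * (12 * lam ^ 2 + 5) / l2 ≤ R := by linarith
    rwa [div_le_iff₀ hl20] at this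
  have r2 : 3200 / ε ≤ R * l2 := by
    have : 3200 / (ε * l2) ≤ R := by linarith
    rw [div_le_iff₀ (by positivity)] at this
    rw [div_le_iff₀ hε0]
    linarith
  have r3 : 800 * C1 * lam ^ 4 ≤ R * l2 := by
    have : 800 * C1 * lam ^ 4 / l2 ≤ R := by linarith
    rwa [div_le_iff₀ hl20] at this
  refine ⟨R, l2 / (1600 * lam ^ 2), by exact_mod_cast hR1, by positivity, ?_⟩
  intro K s n hK hRs hn1 hn2 α hα
  -- real versions
  have hKR : (28 : ℝ) ≤ K := by exact_mod_cast hK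
  have hRsR : (R : ℝ) * (K : ℝ) ^ 2 ≤ s := by exact_mod_cast hRs
  have hK2s : (K : ℝ) ^ 2 ≤ s := by
    have h0 : 0 ≤ (K : ℝ) ^ 2 := by positivity
    nlinarith
  have hs1 : (1 : ℝ) ≤ s := by nlinarith
  have hs0 : (0 : ℝ) < s := by linarith
  obtain ⟨M, hM⟩ : ∃ M : ℕ, M = a ^ (4 * s) := ⟨_, rfl⟩
  have hM1 : 1 ≤ M := by rw [hM]; exact Nat.one_le_pow _ _ (by omega)
  obtain ⟨l, hl⟩ : ∃ l : ℝ, l = 4 * s * la := ⟨_, rfl⟩
  have hl0 : 0 ≤ l := by rw [hl]; positivity
  have hMl : (M : ℝ) = Real.exp l := by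
    rw [hM, hl, hla]
    push_cast
    have h1 : (4 : ℝ) * s * Real.log a = ((4 * s : ℕ) : ℝ) * Real.log a := by push_cast; ring
    rw [h1, ← Real.log_pow, Real.exp_log (by positivity)]
  rw [← hM]
  obtain ⟨m, hm⟩ : ∃ m : ℕ, m = L₀ * K := ⟨_, rfl⟩
  obtain ⟨v, hv⟩ : ∃ v : ℕ, v = K ^ 2 + K * m := ⟨_, rfl⟩
  have hvR : (v : ℝ) = lam * (K : ℝ) ^ 2 := by
    rw [hv, hm, hlam]
    push_cast
    ring
  have hv1 : 1 ≤ v := by
    rw [hv]
    have : 1 ≤ K ^ 2 := Nat.one_le_pow _ _ (by omega)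
    omega
  have hv1R : (1 : ℝ) ≤ v := by exact_mod_cast hv1
  -- the constant `b`
  obtain ⟨L', hL'⟩ : ∃ L' : ℝ, L' = (K : ℝ) ^ 2 + (K + 1) * s * la := ⟨_, rfl⟩
  have hL'0 : 0 ≤ L' := by rw [hL']; positivity
  obtain ⟨b, hb⟩ : ∃ b : ℝ, b = Real.log (11 * (v : ℝ) ^ 2 + K.factorial) + Real.log (1 + L') := ⟨_, rfl⟩
  obtain ⟨P, hP⟩ : ∃ P : ℝ, P = K * s * l2 := ⟨_, rfl⟩
  have hfac1 : (1 : ℝ) ≤ K.factorial := by exact_mod_cast Nat.factorial_pos K
  have hP1 : R * l2 * (K : ℝ) ^ 2 ≤ P := by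
    rw [hP]
    have h1 : R * l2 * (K : ℝ) ^ 2 ≤ s * l2 := by nlinarith
    have h2 : s * l2 ≤ K * (s * l2) := le_mul_of_one_le_left (by positivity) (by linarith)
    linarith
  have hbP : b ≤ P / 800 := by
    have h1 : Real.log (11 * (v : ℝ) ^ 2 + K.factorial) ≤ 12 * lam ^ 2 + 4 * K + (K : ℝ) ^ 2 := by
      have h2 : 11 * (v : ℝ) ^ 2 + K.factorial ≤ (12 * lam ^ 2) * ((K : ℝ) ^ 4 * K.factorial) := by
        have h3 : 1 ≤ (v : ℝ) ^ 2 := one_le_pow₀ hv1R
        have h4 : (v : ℝ) ^ 2 = lam ^ 2 * (K : ℝ) ^ 4 := by rw [hvR]; ring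
        have h5 : (v : ℝ) ^ 2 ≤ (v : ℝ) ^ 2 * K.factorial := le_mul_of_one_le_right (by positivity) hfac1
        have h6 : (K.factorial : ℝ) ≤ (v : ℝ) ^ 2 * K.factorial := le_mul_of_one_le_left (by positivity) h3
        calc 11 * (v : ℝ) ^ 2 + K.factorial ≤ 12 * ((v : ℝ) ^ 2 * K.factorial) := by linarith
          _ = _ := by rw [h4]; ring
      have h7 : (0 : ℝ) < 12 * lam ^ 2 := by positivity
      have h8 : (0 : ℝ) < (K : ℝ) ^ 4 := by positivity
      have h9 : (0 : ℝ) < K.factorial := by positivity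
      calc Real.log (11 * (v : ℝ) ^ 2 + K.factorial) ≤ Real.log ((12 * lam ^ 2) * ((K : ℝ) ^ 4 * K.factorial)) :=
            Real.log_le_log (by positivity) h2
        _ = Real.log (12 * lam ^ 2) + (Real.log ((K : ℝ) ^ 4) + Real.log K.factorial) := by
            rw [Real.log_mul h7.ne' (by positivity), Real.log_mul h8.ne' h9.ne']
        _ ≤ 12 * lam ^ 2 + (4 * K + (K : ℝ) ^ 2) := by
            have g1 : Real.log (12 * lam ^ 2) ≤ 12 * lam ^ 2 :=
              (Real.log_le_sub_one_of_pos h7).trans (by linarith)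
            have g2 : Real.log ((K : ℝ) ^ 4) ≤ 4 * K := by
              rw [Real.log_pow]
              have : Real.log K ≤ K := (Real.log_le_sub_one_of_pos (by linarith)).trans (by linarith)
              push_cast
              linarith
            have g3 := log_fac (K := K) (by omega)
            linarith
        _ = _ := by ring
    have h2 : 12 * lam ^ 2 + 4 * K + (K : ℝ) ^ 2 ≤ P / 1600 := by
      have h3 : 12 * lam ^ 2 + 4 * K + (K : ℝ) ^ 2 ≤ (12 * lam ^ 2 + 5) * (K : ℝ) ^ 2 := by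
        have h4 : (1 : ℝ) ≤ (K : ℝ) ^ 2 := one_le_pow₀ (by linarith)
        have h5 : (K : ℝ) ≤ (K : ℝ) ^ 2 := by nlinarith
        have h6 : 12 * lam ^ 2 ≤ 12 * lam ^ 2 * (K : ℝ) ^ 2 := le_mul_of_one_le_right (by positivity) h4
        nlinarith
      have h4 : 1600 * (12 * lam ^ 2 + 5) * (K : ℝ) ^ 2 ≤ R * l2 * (K : ℝ) ^ 2 :=
        mul_le_mul_of_nonneg_right r1 (by positivity)
      linarith
    have h3 : Real.log (1 + L') ≤ P / 3200 + P / 3200 := by
      have h4 := Pool.Agent.N704.GN.log_one_add' hL'0 hε0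
      have h5 : 1 / ε ≤ P / 3200 := by
        have h6 : 3200 / ε ≤ P := by
          refine r2.trans (le_trans ?_ hP1)
          exact le_mul_of_one_le_right (by positivity) (one_le_pow₀ (by linarith))
        have h7 : 1 / ε = 3200 / ε / 3200 := by ring
        rw [h7]
        linarith
      have h6 : ε * L' ≤ P / 3200 := by
        have h7 : L' ≤ K * s * (1 + 2 * la) := by
          rw [hL']
          have h8 : (K : ℝ) ^ 2 ≤ K * s := by nlinarith
          have h9 : ((K : ℝ) + 1) * s * la ≤ (2 * K) * s * la := by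
            have : (K : ℝ) + 1 ≤ 2 * K := by linarith
            gcongr
          nlinarith
        calc ε * L' ≤ ε * (K * s * (1 + 2 * la)) := mul_le_mul_of_nonneg_left h7 hε0.le
          _ = P / 3200 := by
              rw [hε, hP]
              field_simp
      linarith
    rw [hb]
    linarith
  -- the factors
  obtain ⟨g, hg⟩ : ∃ g : ℝ, g = K * s * l2 / 7 := ⟨_, rfl⟩
  have hg0 : 0 ≤ g := by rw [hg]; positivity
  obtain ⟨G, hG⟩ : ∃ G : Finset ℕ, G = (Icc 1 K).filter fun j => K ≤ 7 * j ∧ 4 * j ≤ K := ⟨_, rfl⟩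
  have hfac : ∀ j ∈ Icc 1 K, WJ v M j (α j) ≤ Real.exp (2 * j * l + b - (if j ∈ G then g else 0)) := by
    intro j hj
    have h1L : 1 ≤ 1 + L' := by linarith
    have hlogL : 0 ≤ Real.log (1 + L') := Real.log_nonneg h1L
    have h11 : (1 : ℝ) ≤ 11 * (v : ℝ) ^ 2 + K.factorial := by
      have := one_le_pow₀ hv1R (n := 2)
      linarith
    have hexpb : (11 * (v : ℝ) ^ 2 + K.factorial) * (1 + L') = Real.exp b := by
      rw [hb, Real.exp_add, Real.exp_log (by linarith), Real.exp_log (by linarith)]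
    split_ifs with hjG
    · rw [hG, mem_filter, mem_Icc] at hjG
      obtain ⟨⟨hj1, hj2⟩, hj7, hj4⟩ := hjG
      obtain ⟨q, A, hq, hqA, hαj, hqle, hqlt⟩ := hα j hj hj7 hj4
      rw [hαj]
      have hj7R : (K : ℝ) ≤ 7 * j := by exact_mod_cast hj7
      have hj1R : (1 : ℝ) ≤ j := by exact_mod_cast hj1
      have hj2R : (j : ℝ) ≤ K := by exact_mod_cast hj2
      have hq1 : (1 : ℝ) ≤ q := by exact_mod_cast hq
      have e1 : Real.exp g ≤ q := by
        have h2 : g ≤ ((K * s / 2 : ℕ) : ℝ) * l2 := by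
          have h3 : (K : ℝ) * s / 2 - 1 ≤ ((K * s / 2 : ℕ) : ℝ) := by
            have h4 : K * s ≤ 2 * (K * s / 2) + 1 := by omega
            have h5 : ((K * s : ℕ) : ℝ) ≤ ((2 * (K * s / 2) + 1 : ℕ) : ℝ) := by exact_mod_cast h4
            push_cast at h5
            have h6 : (((K * s) / 2 : ℕ) : ℝ) = ((K * s / 2 : ℕ) : ℝ) := rfl
            linarith
          have h4 : (K : ℝ) * s / 7 ≤ (K : ℝ) * s / 2 - 1 := by nlinarith
          rw [hg]
          calc (K : ℝ) * s * l2 / 7 = (K : ℝ) * s / 7 * l2 := by ring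
            _ ≤ _ := mul_le_mul_of_nonneg_right (h4.trans h3) hl20.le
        have h3 : Real.exp (((K * s / 2 : ℕ) : ℝ) * l2) = (2 : ℝ) ^ (K * s / 2) := by
          rw [hl2, ← Real.log_pow, Real.exp_log (by positivity)]
        have h4 : (2 : ℝ) ^ (K * s / 2) ≤ q := by exact_mod_cast hqlt.le
        exact (Real.exp_le_exp.2 h2).trans (h3.le.trans h4)
      have e2 : g ≤ j * l := by
        rw [hg, hl]
        have h2 : (K : ℝ) * s * l2 / 7 ≤ j * s * la := by
          have h3 : (K : ℝ) / 7 ≤ j := by linarith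
          calc (K : ℝ) * s * l2 / 7 = (K : ℝ) / 7 * (s * l2) := by ring
            _ ≤ j * (s * la) := mul_le_mul h3 (mul_le_mul_of_nonneg_left hlala hs0.le) (by positivity) (by positivity)
            _ = _ := by ring
        have h3 : 0 ≤ (j : ℝ) * s * la := by positivity
        linarith
      have e3 : (q : ℝ) ≤ K.factorial * Real.exp (2 * j * l - g) := by
        have h2 : (q : ℝ) ≤ K.factorial * (a : ℝ) ^ (n - j * s) := by exact_mod_cast hqle
        refine h2.trans (mul_le_mul_of_nonneg_left ?_ (by positivity))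
        have h3 : (a : ℝ) ^ (n - j * s) = Real.exp (((n - j * s : ℕ) : ℝ) * la) := by
          rw [hla, ← Real.log_pow, Real.exp_log (by positivity)]
        rw [h3]
        apply Real.exp_le_exp.2
        have h4 : ((n - j * s : ℕ) : ℝ) ≤ (K + 1 - j) * s := by
          have h5 : n - j * s + j * s ≤ (K + 1) * s := by
            have h6 : j * s ≤ K * s := Nat.mul_le_mul_right s hj2
            omega
          have h6 : ((n - j * s + j * s : ℕ) : ℝ) ≤ (((K + 1) * s : ℕ) : ℝ) := by exact_mod_cast h5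
          push_cast at h6
          linarith
        have h5 : ((n - j * s : ℕ) : ℝ) * la ≤ (K + 1 - j) * s * la := mul_le_mul_of_nonneg_right h4 hla0.le
        have h6 : ((K : ℝ) + 1 - j) * s * la ≤ 7 * j * s * la := by
          have : (K : ℝ) + 1 - j ≤ 7 * j := by linarith
          gcongr
        have h7 : g ≤ j * s * la := by
          rw [hg]
          have h3 : (K : ℝ) / 7 ≤ j := by linarith
          calc (K : ℝ) * s * l2 / 7 = (K : ℝ) / 7 * (s * l2) := by ring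
            _ ≤ j * (s * la) := mul_le_mul h3 (mul_le_mul_of_nonneg_left hlala hs0.le) (by positivity) (by positivity)
            _ = _ := by ring
        rw [hl]
        linarith
      have h2 := wj_good (A := A) hv1 hM1 hMl hq hqA (by positivity : (0 : ℝ) ≤ K.factorial) e1 e2 e3
      refine h2.trans ?_
      have h3 : Real.log q ≤ L' := by
        have h4 : Real.log q ≤ Real.log (K.factorial * Real.exp (((n - j * s : ℕ) : ℝ) * la)) := by
          apply Real.log_le_log (by linarith)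
          have h2 : (q : ℝ) ≤ K.factorial * (a : ℝ) ^ (n - j * s) := by exact_mod_cast hqle
          have h3 : (a : ℝ) ^ (n - j * s) = Real.exp (((n - j * s : ℕ) : ℝ) * la) := by
            rw [hla, ← Real.log_pow, Real.exp_log (by positivity)]
          rwa [h3] at h2
        rw [Real.log_mul (by positivity) (by positivity), Real.log_exp] at h4
        have h5 : ((n - j * s : ℕ) : ℝ) ≤ (K + 1) * s := by
          have h6 : n - j * s ≤ (K + 1) * s := by omega
          exact_mod_cast h6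
        have h6 := log_fac (K := K) (by omega)
        rw [hL']
        have h7 : ((n - j * s : ℕ) : ℝ) * la ≤ (K + 1) * s * la := mul_le_mul_of_nonneg_right h5 hla0.le
        linarith
      have e4 : 2 * (j : ℝ) * l + b - g = (2 * j * l - g) + b := by ring
      rw [e4, Real.exp_add, ← hexpb]
      apply mul_le_mul_of_nonneg_left _ (Real.exp_pos _).le
      apply mul_le_mul_of_nonneg_left _ (by positivity)
      linarith
    · rw [sub_zero, Real.exp_add, ← hexpb]
      refine (wj_triv hv1 hM1 hMl).trans (mul_le_mul_of_nonneg_left ?_ (Real.exp_pos _).le)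
      have h2 : 9 * (v : ℝ) ^ 2 ≤ 11 * (v : ℝ) ^ 2 + K.factorial := by
        have : 0 ≤ (v : ℝ) ^ 2 := by positivity
        linarith
      calc 9 * (v : ℝ) ^ 2 ≤ 11 * (v : ℝ) ^ 2 + K.factorial := h2
        _ ≤ _ := le_mul_of_one_le_right (by linarith) h1L
  have hprod : ∏ j ∈ Icc 1 K, WJ v M j (α j) ≤ Real.exp (K * (K + 1) * l + K * b - G.card * g) := by
    refine (prod_le_prod (fun j _ => wj_nonneg _ _ _ _) hfac).trans (le_of_eq ?_)
    rw [← Real.exp_sum]
    congr 1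
    rw [sum_sub_distrib, sum_add_distrib]
    have h1 : ∑ j ∈ Icc 1 K, 2 * (j : ℝ) * l = K * (K + 1) * l := by
      rw [← sum_mul, Pool.Agent.Y70.VK.sum_two_mul]
    have h2 : ∑ _j ∈ Icc 1 K, b = K * b := by
      rw [sum_const, Nat.card_Icc, nsmul_eq_mul]
      congr 1
    have h3 : ∑ j ∈ Icc 1 K, (if j ∈ G then g else 0) = G.card * g := by
      rw [← sum_filter, sum_const, nsmul_eq_mul]
      congr 2
      congr 1
      ext j
      rw [hG, mem_filter, mem_filter]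
      tauto
    rw [h1, h2, h3]
  -- the mean value
  have hJ := hV K m M (by omega) hM1
  obtain ⟨η, hη⟩ : ∃ η : ℝ, η = (1 - 1 / (K : ℝ)) ^ m := ⟨_, rfl⟩
  rw [← hη, ← hv] at hJ
  have hη0 : 0 ≤ η := by
    rw [hη]
    apply pow_nonneg
    rw [sub_nonneg, div_le_one (by linarith)]
    linarith
  have hη1 : η ≤ l2 / (3200 * la) := by
    rw [hη, hm]
    exact (pow_le_exp (by omega)).trans hL₀
  obtain ⟨E, hE⟩ : ∃ E : ℝ, E = 2 * ((K : ℝ) ^ 2 + K * m) - K * (K + 1) / 2 + K * (K + 1) / 2 * η := ⟨_, rfl⟩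
  rw [← hE] at hJ
  have hJ2 : (J v K M : ℝ) ^ 2 ≤ Real.exp (2 * (C1 * ((K : ℝ) + m) ^ 4 + l * E)) := by
    have h1 : Real.exp (C1 * ((K : ℝ) + m) ^ 4) * (M : ℝ) ^ E = Real.exp (C1 * ((K : ℝ) + m) ^ 4 + l * E) := by
      rw [hMl, ← Real.exp_mul, ← Real.exp_add]
    rw [h1] at hJ
    have h2 := pow_le_pow_left₀ (by positivity) hJ 2
    rw [← Real.exp_nat_mul] at h2
    push_cast at h2
    exact h2
  have hd := hdbl v K M α hv1 (by omega) hM1
  have hMpow : (M : ℝ) ^ (8 * v ^ 2 - 4 * v) = Real.exp ((8 * (v : ℝ) ^ 2 - 4 * v) * l) := by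
    rw [hMl, ← Real.exp_nat_mul]
    congr 1
    have h1 : 4 * v ≤ 8 * v ^ 2 := by nlinarith
    rw [Nat.cast_sub h1]
    push_cast
    ring
  obtain ⟨D₀, hD₀⟩ : ∃ D₀ : ℝ, D₀ = l2 / (1600 * lam ^ 2) * (s / (K : ℝ) ^ 2) := ⟨_, rfl⟩
  obtain ⟨Z, hZ⟩ : ∃ Z : ℝ, Z = (K : ℝ) ^ 2 * s * l2 := ⟨_, rfl⟩
  have hfinal : ‖TT K M α‖ ^ (4 * v ^ 2) ≤ (Real.exp (2 * l - D₀)) ^ (4 * v ^ 2) := by
    refine hd.trans ?_
    have h1 : (M : ℝ) ^ (8 * v ^ 2 - 4 * v) * (J v K M : ℝ) ^ 2 * ∏ j ∈ Icc 1 K, WJ v M j (α j) ≤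
        Real.exp ((8 * (v : ℝ) ^ 2 - 4 * v) * l) * Real.exp (2 * (C1 * ((K : ℝ) + m) ^ 4 + l * E)) *
          Real.exp (K * (K + 1) * l + K * b - G.card * g) := by
      rw [hMpow]
      apply mul_le_mul _ hprod (prod_nonneg fun j _ => wj_nonneg _ _ _ _) (by positivity)
      exact mul_le_mul_of_nonneg_left hJ2 (Real.exp_pos _).le
    refine h1.trans ?_
    rw [← Real.exp_add, ← Real.exp_add, ← Real.exp_nat_mul]
    apply Real.exp_le_exp.2
    have hmR : (m : ℝ) = L₀ * K := by rw [hm]; push_cast; ring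
    have hvv : (K : ℝ) ^ 2 + K * m = v := by rw [hv]; push_cast; ring
    have e1 : 2 * (l * E) = 4 * v * l - K * (K + 1) * l + K * (K + 1) * η * l := by
      rw [hE, hvv]
      ring
    have e2 : (K : ℝ) * (K + 1) * η * l ≤ Z / 400 := by
      have h2 : (K : ℝ) * (K + 1) ≤ 2 * (K : ℝ) ^ 2 := by nlinarith
      calc (K : ℝ) * (K + 1) * η * l ≤ (2 * (K : ℝ) ^ 2) * (l2 / (3200 * la)) * l := by
            apply mul_le_mul_of_nonneg_right _ hl0
            exact mul_le_mul h2 hη1 hη0 (by positivity)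
        _ = Z / 400 := by
            rw [hl, hZ]
            field_simp
            ring
    have e3 : 2 * (C1 * ((K : ℝ) + m) ^ 4) ≤ Z / 400 := by
      have h2 : (K : ℝ) + m = lam * K := by rw [hmR, hlam]; ring
      rw [h2, mul_pow]
      have h3 : 800 * C1 * lam ^ 4 * (K : ℝ) ^ 4 ≤ R * l2 * (K : ℝ) ^ 4 :=
        mul_le_mul_of_nonneg_right r3 (by positivity)
      have h4 : R * l2 * (K : ℝ) ^ 4 ≤ Z := by
        rw [hZ]
        calc R * l2 * (K : ℝ) ^ 4 = (R * (K : ℝ) ^ 2) * ((K : ℝ) ^ 2 * l2) := by ring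
          _ ≤ s * ((K : ℝ) ^ 2 * l2) := mul_le_mul_of_nonneg_right hRsR (by positivity)
          _ = _ := by ring
      linarith
    have e4 : K * b ≤ Z / 800 := by
      calc K * b ≤ K * (P / 800) := mul_le_mul_of_nonneg_left hbP (by linarith)
        _ = Z / 800 := by rw [hP, hZ]; ring
    have e5 : Z / 98 ≤ G.card * g := by
      have h2 : (K : ℝ) / 14 ≤ G.card := by
        rw [hG]
        exact card_good (by omega)
      calc Z / 98 = (K : ℝ) / 14 * g := by rw [hZ, hg]; ring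
        _ ≤ _ := mul_le_mul_of_nonneg_right h2 hg0
    have e6 : 4 * (v : ℝ) ^ 2 * D₀ ≤ Z / 400 := by
      rw [hD₀, hvR, hZ]
      have hK0 : (K : ℝ) ≠ 0 := by positivity
      apply le_of_eq
      field_simp
      ring
    have hZ0 : 0 ≤ Z := by rw [hZ]; positivity
    push_cast
    nlinarith
  have h1 : ‖TT K M α‖ ≤ Real.exp (2 * l - D₀) := by
    by_contra hcon
    push Not at hcon
    have h2 := pow_lt_pow_left₀ hcon (Real.exp_pos _).le (n := 4 * v ^ 2) (by positivity)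
    exact absurd hfinal (not_le.2 h2)
  refine h1.trans ?_
  have h2 : Real.exp (2 * l - D₀) = Real.exp (-D₀) * (M : ℝ) ^ 2 := by
    rw [hMl, ← Real.exp_nat_mul, ← Real.exp_add]
    congr 1
    push_cast
    ring
  rw [h2, hD₀]

end Pool.Agent.J4.H78.HP
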